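import Pool.Agent.Q66.RX.Stm

/-! Project RX (helper66), job FEV: characters of the dual which are evaluations on the characters of
one coordinate are evaluations. -/

set_option autoImplicit false

namespace Pool.Agent.Q182.RX

open Pool.Agent.Q66.RX Topology Filter

theorem nhds_aux {G : Type} [CommGroup G] [TopologicalSpace G] [IsTopologicalGroup G]
    (N : Set (G →ₜ* Circle)) (hN : N ∈ 𝓝 (1 : G →ₜ* Circle)) :
    ∃ C : Set G, IsCompact C ∧ ∃ V ∈ 𝓝 (1 : Circle), ∀ θ : G →ₜ* Circle,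
      (∀ y ∈ C, θ y ∈ V) → θ ∈ N := by
  rw [(ContinuousMonoidHom.isInducing_toContinuousMap G Circle).nhds_eq_comap 1] at hN
  obtain ⟨N', hN', hsub⟩ := hN
  obtain ⟨E, hE, hEs⟩ := UniformSpace.mem_nhds_iff.1 hN'
  obtain ⟨C, V, hC, hV, hCV⟩ := (ContinuousMap.mem_compactConvergence_entourage_iff E).1 hE
  refine ⟨C, hC, UniformSpace.ball 1 V, UniformSpace.ball_mem_nhds 1 hV,
    fun θ hθ => hsub (hEs (hCV ?_))⟩
  intro y hy
  exact hθ y hy

/-- neighbourhoods of one in the dual -/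
theorem dual_nhds {G : Type} [CommGroup G] [TopologicalSpace G] [IsTopologicalGroup G]
    (N : Set (PontryaginDual G)) (hN : N ∈ 𝓝 (1 : PontryaginDual G)) :
    ∃ C : Set G, IsCompact C ∧ ∃ V ∈ 𝓝 (1 : Circle), ∀ θ : PontryaginDual G,
      (∀ y ∈ C, θ y ∈ V) → θ ∈ N := nhds_aux N hN

/-- evaluation at a point is a homomorphism -/
noncomputable def evh {G : Type} [CommGroup G] [TopologicalSpace G] [IsTopologicalGroup G] (y : G) :
    PontryaginDual G →* Circle where
  toFun θ := θ y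
  map_one' := rfl
  map_mul' _ _ := rfl

theorem t_FEV : S_FEV := by
  intro I X G _ _ _ _ _ _ F hAP Φ x hx χ
  by_contra hne
  have hopen : {θ : PontryaginDual G | Φ (θ * χ) ≠ (θ * χ) x} ∈ 𝓝 (1 : PontryaginDual G) := by
    have c1 : Continuous fun θ : PontryaginDual G => Φ (θ * χ) :=
      (map_continuous Φ).comp (continuous_mul_const χ)
    have c0 : Continuous fun θ : PontryaginDual G => θ x :=
      continuous_eval_const (F := ContinuousMonoidHom G Circle) x
    have c2 : Continuous fun θ : PontryaginDual G => (θ * χ) x :=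
      c0.comp (continuous_mul_const χ)
    apply (isOpen_ne_fun c1 c2).mem_nhds
    show Φ (1 * χ) ≠ (1 * χ) x
    rwa [one_mul]
  obtain ⟨C, hC, V, hV, hCV⟩ := dual_nhds _ hopen
  have hW : {g : G | χ g ∈ V} ∈ 𝓝 (1 : G) :=
    (map_continuous χ).continuousAt.preimage_mem_nhds (by rwa [map_one])
  obtain ⟨J, E, hE⟩ := hAP C hC _ hW
  obtain ⟨χ', hχ'⟩ : ∃ χ' : PontryaginDual G,
      χ' = ∏ j ∈ J, F.pb j (PontryaginDual.map (E j) χ) := ⟨_, rfl⟩
  have happ : ∀ y, χ' y = χ (∏ j ∈ J, E j (F.c y j)) := by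
    intro y
    have h1 : evh y χ' = ∏ j ∈ J, evh y (F.pb j (PontryaginDual.map (E j) χ)) := by
      rw [hχ', map_prod]
    rw [map_prod]
    exact h1
  have hmem := hCV (χ' * χ⁻¹) (by
    intro y hy
    have h2 : (χ' * χ⁻¹) y = χ ((∏ j ∈ J, E j (F.c y j)) * y⁻¹) := by
      rw [map_mul, map_inv, ← happ y]
      rfl
    rw [h2]
    exact hE y hy)
  apply hmem
  rw [inv_mul_cancel_right, happ x, hχ', map_prod, map_prod]
  refine Finset.prod_congr rfl fun j _ => ?_
  rw [hx]
  rfl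

end Pool.Agent.Q182.RX
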